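import Pool.Agent.Q50.BL.BDefs
import Pool.Agent.Q55.MotivatedDefs

/-!
# Hodge classes and motivated classes: definitions
-/

open CategoryTheory AlgebraicGeometry

universe u

namespace Pool.Agent.Q50.MO

section Alg

variable {K A B C Z : Type*} [Field K] [Ring A] [Ring B] [Algebra K A] [Algebra K B]
  [AddCommGroup Z]

/-- The value of the additive map `f` at `z`. -/
def apZ (f : Z →+ A) (z : Z) : A := f z

/-- The value of the homomorphism of algebras `f` at `a`. -/
def apA (f : A →ₐ[K] B) (a : A) : B := f a

/-- The value of the linear map `f` at `a`. -/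
def apL (f : A →ₗ[K] B) (a : A) : B := f a

/-- The linear combination `r a + s b`. -/
def comb (r s : K) (a b : A) : A := r • a + s • b

/-- The class `c` (in `V`) gives the operator `Λ` of the Lefschetz operator `L a = d a`. The
operator given by `c` is `a ↦ s (c · p a)`. -/
def IsLamClass (gr : ℕ → Submodule K A) (V : Submodule K B) (n : ℕ) (d : A) (p : A →ₐ[K] B)
    (s : B →ₗ[K] A) (c : B) : Prop :=
  c ∈ V ∧ Pool.Agent.H914.IsLam gr n (LinearMap.mulLeft K d) (Pool.Agent.H914.corrOp p s c)

end Alg

open Pool.Agent.H914 Pool.Agent.H914.VarClass Pool.Agent.H914.VarClass.Obj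
  Pool.Agent.H914.WeilCohomology
open Pool.Agent.Y121.AHS
open Pool.Agent.Y133.Half (dimOf)

variable {k : Type u} [Field k] {𝒱 : VarClass k} {ops : CycleOps 𝒱}

/-- The class `c` on `X × X` is the class of the operator `Λ` of the divisor `D` on `X`. -/
def IsLambda (W : WeilCohomology.{u, 0} ops) (X : 𝒱.Obj) (D : X.Cycles)
    (c : W.H (X.prod X)) : Prop :=
  IsLamClass (W.gr X) (W.gr (X.prod X) (2 * (X.dim - 1))) X.dim (apZ (W.cl X) D)
    (W.map (fst X X)) (W.push (snd X X)) c

/-- The motivated classes of André (with rational coefficients if the cohomology has rational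
coefficients): the smallest family of spaces of classes of degree `2 j` on all varieties which
contains the classes of algebraic cycles and the classes of the operators `Λ` of all divisors which
satisfy hard Lefschetz, and which is stable under products, pull-backs and push-forwards. -/
inductive Motivated (W : WeilCohomology.{u, 0} ops) : ∀ X : 𝒱.Obj, ℕ → W.H X → Prop
  | cl {X : 𝒱.Obj} {j : ℕ} {z : X.Cycles} : X.IsCyc j z → Motivated W X j (apZ (W.cl X) z)
  | lambda {X : 𝒱.Obj} {D : X.Cycles} {c : W.H (X.prod X)} : X.IsCyc 1 D →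
      HardLefschetz W X D → IsLambda W X D c → Motivated W (X.prod X) (X.dim - 1) c
  | comb {X : 𝒱.Obj} {j : ℕ} (r s : W.K) {a b : W.H X} : Motivated W X j a → Motivated W X j b →
      Motivated W X j (comb r s a b)
  | mul {X : 𝒱.Obj} {i j : ℕ} {a b : W.H X} : Motivated W X i a → Motivated W X j b →
      Motivated W X (i + j) (a * b)
  | pull {X Y : 𝒱.Obj} (f : X ⟶ Y) {j : ℕ} {a : W.H Y} : Motivated W Y j a →
      Motivated W X j (apA (W.map f) a)
  | push {X Y : 𝒱.Obj} (f : X ⟶ Y) {j l : ℕ} {a : W.H X} : l + X.dim = j + Y.dim →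
      Motivated W X j a → Motivated W Y l (apL (W.push f) a)

/-- All Hodge classes on `Y` are motivated. -/
def AllMotivated (T : HodgeTheory ops) (Y : 𝒱.Obj) : Prop :=
  ∀ j c, IsHodge T Y j c → Motivated T.W Y j c

/-- The dimension of the space spanned by the motivated classes of all degrees on `X`. -/
noncomputable def motDim (W : WeilCohomology.{u, 0} ops) (X : 𝒱.Obj) : ℕ :=
  dimOf W {c | ∃ j, Motivated W X j c}

end Pool.Agent.Q50.MO
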