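import Pool.Agent.Q50.MO.Mot
import Pool.Agent.Y121.AH.HR
import Pool.Agent.H447R3.NumB

/-!
# The intersection pairing on the motivated classes
-/

open CategoryTheory AlgebraicGeometry TensorProduct

universe u

namespace Pool.Agent.Q50.MO

open Module
open Pool.Agent.H914 Pool.Agent.H914.VarClass Pool.Agent.H914.VarClass.Obj
  Pool.Agent.H914.WeilCohomology
open Pool.Agent.Y133.Half
open Pool.Agent.Y121
open Pool.Agent.H447
open Pool.Agent.Q55 (Motivated motPred motDim)

variable {k : Type u} [Field k] {𝒱 : VarClass k} {ops : CycleOps 𝒱} {T : AH.HodgeTheory ops}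
  {X : 𝒱.Obj}

/-- The motivated classes have the Lefschetz isomorphisms. -/
lemma lifts_mot (T : AH.HodgeTheory ops) : AH.Lifts T (motPred T.W) := by
  intro X D hD j hj v hv
  have hv' : Motivated T.W X (X.dim - j) v := hv
  have hL : IsHom (T.W.gr X) 2 (LinearMap.mulLeft T.W.K (T.W.cl X D)) := by
    simpa using rop_opAlg.hom (rop_mulLeft (W := T.W) hD.1)
  by_cases h0 : X.dim - 2 * j = 0
  · have h1 : X.dim - j = j := by omega
    rw [h1] at hv'
    exact ⟨v, hv', by rw [h0, pow_zero, one_mul]⟩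
  obtain ⟨Lam, hh, hLam⟩ := exists_isLam (T.W.isInternal X) hL W_hbd hD.2.1
  obtain ⟨τ, rfl⟩ := exists_corr Lam
  have hτ : τ ∈ T.W.gr (X.prod X) (2 * (X.dim - 1)) := by
    apply mem_gr_of_isHom
    rwa [show (2 * (((X.dim - 1 : ℕ) : ℤ) - X.dim)) = -2 by omega]
  have hτm : Motivated T.W (X.prod X) (X.dim - 1) τ :=
    Motivated.lambda hD.1 hD.2.1 ⟨hτ, hLam⟩
  have hstep : ∀ i a, Motivated T.W X (i + 1) a → Motivated T.W X i (T.W.corr τ a) := by
    intro i a ha
    rw [corr_apply]
    refine Motivated.push (snd X X) ?_ (Motivated.mul hτm (Motivated.pull (fst X X) ha))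
    rw [dim_prod]
    omega
  have hpow : ∀ m, m ≤ X.dim - 2 * j →
      Motivated T.W X (X.dim - j - m) ((T.W.corr τ ^ m) v) := by
    intro m
    induction m with
    | zero => intro _; simpa using hv'
    | succ m ih =>
      intro hm
      rw [pow_succ', Module.End.mul_apply]
      apply hstep
      have := ih (by omega)
      rwa [show X.dim - j - (m + 1) + 1 = X.dim - j - m by omega]
  have h2 : v ∈ T.W.gr X (2 * X.dim - 2 * j) := by
    have := hv'.gr
    rwa [show 2 * (X.dim - j) = 2 * X.dim - 2 * j by omega] at this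
  obtain ⟨x, hx, hxv⟩ := AH.hl_surj hD.2.1 hj h2
  have h3 : (T.W.corr τ ^ (X.dim - 2 * j)) v = x := by
    have h4 := lam_pow_L_pow hL W_hbd hD.2.1 hLam (c := X.dim - 2 * j) (by omega) (a := x)
      (by rwa [show X.dim - (X.dim - 2 * j) = 2 * j by omega])
    rw [LinearMap.pow_mulLeft, LinearMap.mulLeft_apply, hxv] at h4
    exact h4
  refine ⟨x, ?_, hxv⟩
  have h5 := hpow (X.dim - 2 * j) le_rfl
  rw [h3, show X.dim - j - (X.dim - 2 * j) = j by omega] at h5
  exact h5

/-- The intersection pairing on the motivated classes is nondegenerate. -/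
lemma mot_num (X : 𝒱.Obj) : (motSys T.W).Num X = ⊥ := by
  rw [eq_bot_iff]
  intro x hx
  exact AH.q_nondeg_sys (Q := motPred T.W) (fun {X j x} h => mot_hodge (T := T) h)
    (lifts_mot T) hx.1 hx.2

lemma motDim_eq_a (X : 𝒱.Obj) : motDim T.W X = (motSys T.W).a X := by
  have h1 := (motSys T.W).a_add_num X
  rw [mot_num, finrank_bot, add_zero] at h1
  rw [h1]
  rfl

end Pool.Agent.Q50.MO
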