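import Pool.Agent.Q50.MO.MDefs
import Pool.Agent.Q50.MO.MNum

/-!
# Hodge classes and motivated classes: the results
-/

open CategoryTheory AlgebraicGeometry TensorProduct

universe u

namespace Pool.Agent.Q50.MO

open Module
open Pool.Agent.H914 Pool.Agent.H914.VarClass Pool.Agent.H914.VarClass.Obj
  Pool.Agent.H914.WeilCohomology
open Pool.Agent.Y133.Half
open Pool.Agent.Y121
open Pool.Agent.Q50.BL
open Pool.Agent.Q55 (Motivated motDim)
open Pool.Agent.Q60.HDS (PolHodgeTheory totalBetti power tH realH exists_isPol bound_pos)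

variable {k : Type u} [Field k] {𝒱 : VarClass k} {ops : CycleOps 𝒱}

lemma hodgeMotivated_iff {T : AHS.HodgeTheory ops} {Y : 𝒱.Obj} :
    HodgeMotivated T Y ↔ FullS (T := AHS.toH T) (motSys (AHS.toH T).W) Y :=
  (fullS_mot_iff (T := AHS.toH T)).symm

variable (T : PolHodgeTheory ops)

theorem mot_isHodge (Y : 𝒱.Obj) (j : ℕ) (c : T.W.H Y) (h : Motivated T.W Y j c) :
    AHS.IsHodge T.toHodgeTheory Y j c := mot_hodge (T := AHS.toH T.toHodgeTheory) h

theorem mot_determination {X : 𝒱.Obj} (h : HodgeMotivated T.toHodgeTheory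
    (power X ((2 * totalBetti T.toHodgeTheory X) ^ (3 * totalBetti T.toHodgeTheory X ^ 2))))
    (n : ℕ) : HodgeMotivated T.toHodgeTheory (power X n) :=
  hodgeMotivated_iff.2 (determination T (S := motSys (tH T).W) mot_le_hodge (X := X) le_rfl
    (hodgeMotivated_iff.1 h) (n - 1))

theorem mot_half {X : 𝒱.Obj} {ε : ℝ} (hε : 0 < ε) {n : ℕ}
    (hn : (2 * (totalBetti T.toHodgeTheory X : ℝ)) ^ (3 * (2 * totalBetti T.toHodgeTheory X) ^
      (3 * totalBetti T.toHodgeTheory X ^ 2)) / ε ^ 2 ≤ n)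
    (h : (1 / 2 + ε) * AHS.hodgeDim T.toHodgeTheory (power X n) < motDim T.W (power X n))
    (m : ℕ) : HodgeMotivated T.toHodgeTheory (power X m) := by
  obtain ⟨φ, hφ⟩ := exists_isPol T X
  have h1 : (motDim T.W (power X n) : ℝ) ≤ (motSys (tH T).W).a (power X n) :=
    le_of_eq (congrArg Nat.cast (motDim_eq_a (T := tH T) (power X n)))
  refine hodgeMotivated_iff.2 (Pool.Agent.Q60.HD.uniform (realH T X) hφ (motSys (tH T).W)
    (fun Z => mot_le_hodge Z)
    (fun Z z hz => cl_mem_mot _ Z z hz) hε (n := n - 1) ?_ ?_ (m - 1))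
  · refine hn.trans ?_
    exact_mod_cast (by omega : n ≤ n - 1 + 1)
  · exact lt_of_lt_of_le h h1

theorem mot_bounded_level (X : 𝒱.Obj) (l : ℕ) :
    ∃ M : Finset ℕ, M.card ≤ (2 * l + 1) ^ (totalBetti T.toHodgeTheory X ^ 2) ∧
      ∀ N : ℕ, (∀ m ∈ M, m ≤ N) →
        (2 * totalBetti T.toHodgeTheory X) ^ (3 * totalBetti T.toHodgeTheory X ^ 2) ≤ N →
        ∀ Z : 𝒱.Obj, LevelLE T.toHodgeTheory Z l →
          HodgeMotivated T.toHodgeTheory (Z.prod (power X N)) →
            ∀ n, HodgeMotivated T.toHodgeTheory (Z.prod (power X n)) := by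
  obtain ⟨M, hM, h⟩ := bounded_level T X l
  refine ⟨M, hM, fun N hN hN0 Z hZ hZN n => ?_⟩
  exact hodgeMotivated_iff.2 (h (motSys (tH T).W) mot_le_hodge (fun Z z hz => cl_mem_mot _ Z z hz)
    N hN hN0 Z hZ (hodgeMotivated_iff.1 hZN) n)

end Pool.Agent.Q50.MO
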