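import Pool.Agent.Q50.MO.CDefs
import Pool.Agent.Q50.MO.MFin

/-!
# Hodge classes and motivated classes: the results
-/

open CategoryTheory AlgebraicGeometry TensorProduct

universe u

namespace Pool.Agent.Q50.MO

open Module
open Pool.Agent.H914 Pool.Agent.H914.VarClass Pool.Agent.H914.VarClass.Obj
  Pool.Agent.H914.WeilCohomology
open Pool.Agent.Y121
open Pool.Agent.Q50.BL
open Pool.Agent.Q60.HDS (PolHodgeTheory totalBetti power)

variable {k : Type u} [Field k] {𝒱 : VarClass k} {ops : CycleOps 𝒱}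

lemma isLambda_iff {W : WeilCohomology.{u, 0} ops} {X : 𝒱.Obj} {D : X.Cycles}
    {c : W.H (X.prod X)} : IsLambda W X D c ↔ Pool.Agent.Q55.IsLambdaClass W X D c := Iff.rfl

lemma motivated_iff {W : WeilCohomology.{u, 0} ops} {X : 𝒱.Obj} {j : ℕ} {c : W.H X} :
    Motivated W X j c ↔ Pool.Agent.Q55.Motivated W X j c := by
  constructor
  · intro h
    induction h with
    | cl hz => exact Pool.Agent.Q55.Motivated.cl hz
    | lambda hD hHL hc => exact Pool.Agent.Q55.Motivated.lambda hD hHL (isLambda_iff.1 hc)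
    | comb r s _ _ ha hb =>
      exact Pool.Agent.Q55.Motivated.add (Pool.Agent.Q55.Motivated.smul r ha)
        (Pool.Agent.Q55.Motivated.smul s hb)
    | mul _ _ ha hb => exact Pool.Agent.Q55.Motivated.mul ha hb
    | pull f _ ha => exact Pool.Agent.Q55.Motivated.pull f ha
    | push f hl _ ha => exact Pool.Agent.Q55.Motivated.push f hl ha
  · intro h
    induction h with
    | cl hz => exact Motivated.cl hz
    | lambda hD hHL hc => exact Motivated.lambda hD hHL (isLambda_iff.2 hc)
    | @add X j a b _ _ ha hb =>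
      have h := Motivated.comb 1 1 ha hb
      have e : comb (K := W.K) 1 1 a b = a + b := by rw [comb, one_smul, one_smul]
      rwa [e] at h
    | @smul X j r a _ ha =>
      have h := Motivated.comb r 0 ha ha
      have e : comb (K := W.K) r 0 a a = r • a := by rw [comb, zero_smul, add_zero]
      rwa [e] at h
    | mul _ _ ha hb => exact Motivated.mul ha hb
    | pull f _ ha => exact Motivated.pull f ha
    | push f hl _ ha => exact Motivated.push f hl ha

lemma allMotivated_iff {T : AHS.HodgeTheory ops} {Y : 𝒱.Obj} :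
    AllMotivated T Y ↔ HodgeMotivated T Y :=
  ⟨fun h j c hc => motivated_iff.1 (h j c hc), fun h j c hc => motivated_iff.2 (h j c hc)⟩

lemma motDim_eq (W : WeilCohomology.{u, 0} ops) (X : 𝒱.Obj) :
    motDim W X = Pool.Agent.Q55.motDim W X := by
  unfold motDim Pool.Agent.Q55.motDim
  congr 1
  ext c
  exact exists_congr fun j => motivated_iff

variable (T : PolHodgeTheory ops)

theorem c_isHodge (Y : 𝒱.Obj) (j : ℕ) (c : T.W.H Y) (h : Motivated T.W Y j c) :
    AHS.IsHodge T.toHodgeTheory Y j c := mot_isHodge T Y j c (motivated_iff.1 h)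

theorem c_determination {X : 𝒱.Obj} (h : AllMotivated T.toHodgeTheory
    (power X ((2 * totalBetti T.toHodgeTheory X) ^ (3 * totalBetti T.toHodgeTheory X ^ 2))))
    (n : ℕ) : AllMotivated T.toHodgeTheory (power X n) :=
  allMotivated_iff.2 (mot_determination T (allMotivated_iff.1 h) n)

theorem c_half {X : 𝒱.Obj} {ε : ℝ} (hε : 0 < ε) {n : ℕ}
    (hn : (2 * (totalBetti T.toHodgeTheory X : ℝ)) ^ (3 * (2 * totalBetti T.toHodgeTheory X) ^
      (3 * totalBetti T.toHodgeTheory X ^ 2)) / ε ^ 2 ≤ n)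
    (h : (1 / 2 + ε) * AHS.hodgeDim T.toHodgeTheory (power X n) < motDim T.W (power X n))
    (m : ℕ) : AllMotivated T.toHodgeTheory (power X m) := by
  rw [motDim_eq] at h
  exact allMotivated_iff.2 (mot_half T hε hn h m)

theorem c_bounded_level (X : 𝒱.Obj) (l : ℕ) :
    ∃ M : Finset ℕ, M.card ≤ (2 * l + 1) ^ (totalBetti T.toHodgeTheory X ^ 2) ∧
      ∀ N : ℕ, (∀ m ∈ M, m ≤ N) →
        (2 * totalBetti T.toHodgeTheory X) ^ (3 * totalBetti T.toHodgeTheory X ^ 2) ≤ N →
        ∀ Z : 𝒱.Obj, LevelLE T.toHodgeTheory Z l →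
          AllMotivated T.toHodgeTheory (Z.prod (power X N)) →
            ∀ n, AllMotivated T.toHodgeTheory (Z.prod (power X n)) := by
  obtain ⟨M, hM, h⟩ := mot_bounded_level T X l
  exact ⟨M, hM, fun N hN hN0 Z hZ hZN n =>
    allMotivated_iff.2 (h N hN hN0 Z hZ (allMotivated_iff.1 hZN) n)⟩

end Pool.Agent.Q50.MO
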