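import Pool.Agent.Q50.BL.Main
import Pool.Agent.Q60.HD.Law

/-!
# Hodge classes on the products `Z × X^n` and systems of classes
-/

open CategoryTheory AlgebraicGeometry TensorProduct

universe u

namespace Pool.Agent.Q50.MO

open Module
open Pool.Agent.H914 Pool.Agent.H914.VarClass Pool.Agent.H914.VarClass.Obj
  Pool.Agent.H914.WeilCohomology
open Pool.Agent.Y133.Half
open Pool.Agent.Y121
open Pool.Agent.Q50.BL

variable {k : Type u} [Field k] {𝒱 : VarClass k} {ops : CycleOps 𝒱}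

section AH

variable {T : AH.HodgeTheory ops} {X Y Z : 𝒱.Obj} {l : ℕ} {S : Sys T.W}

/-- All Hodge classes on `Y` belong to the system `S`. -/
def FullS (S : Sys T.W) (Y : 𝒱.Obj) : Prop := (AH.hodgeSys T).C Y ≤ S.C Y

/-- Retracts. -/
lemma FullS.retract (h : FullS S Y) (s : X ⟶ Y) (q : Y ⟶ X) (hsq : s ≫ q = 𝟙 X) :
    FullS S X := by
  intro c hc
  have h1 := h ((AH.hodgeSys T).map q hc)
  have h2 := S.map s h1
  rwa [← T.W.map_comp, hsq, T.W.map_id] at h2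

lemma FullS.of_prod (hS1 : ∀ Z : 𝒱.Obj, ∀ z : Z.Cycles, Z.IsCyc 1 z → T.W.cl Z z ∈ S.C Z)
    [Nontrivial (T.W.H Z)] (h : FullS S (Z.prod Y)) : FullS S Y := by
  obtain ⟨t, ht, ht1⟩ := Pool.Agent.Q60.HD.exists_tr_sys (X := Z) S hS1
  intro c hc
  have h1 := h ((AH.hodgeSys T).map (snd Z Y) hc)
  have h2 := S.push (snd Z Y) (S.mul (S.map (fst Z Y) ht) h1)
  rwa [T.W.push_snd, ht1, one_smul] at h2

lemma fullS_trivial [Subsingleton (T.W.H Z)] : FullS S (Z.prod Y) := by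
  have h1 : finrank T.W.K (T.W.H (Z.prod Y)) = 0 := by
    rw [Pool.Agent.Y133.Half.finrank_prod, Module.finrank_zero_of_subsingleton, zero_mul]
  have h2 : Subsingleton (T.W.H (Z.prod Y)) := Module.finrank_zero_iff.1 h1
  intro c _
  rw [Subsingleton.elim c 0]
  exact Submodule.zero_mem _

lemma FullS.retract_prod {P Q : 𝒱.Obj} (h : FullS S (Z.prod Q)) (s : P ⟶ Q) (q : Q ⟶ P)
    (hs : s ≫ q = 𝟙 P) : FullS S (Z.prod P) := by
  refine h.retract (Obj.lift (fst Z P) (snd Z P ≫ s)) (Obj.lift (fst Z Q) (snd Z Q ≫ q)) ?_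
  apply prod_hom_ext
  · rw [Category.assoc, Obj.lift_fst, Obj.lift_fst, Category.id_comp]
  · rw [Category.assoc, Obj.lift_snd, ← Category.assoc, Obj.lift_snd, Category.assoc, hs,
      Category.comp_id, Category.id_comp]

lemma FullS.pw_le {m n : ℕ} (hmn : m ≤ n) (h : FullS S (Z.prod (pw X n))) :
    FullS S (Z.prod (pw X m)) := by
  induction n, hmn using Nat.le_induction with
  | base => exact h
  | succ n _ ih =>
    obtain ⟨s, hs⟩ := exists_pw_section X n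
    exact ih (h.retract_prod s (fst (pw X n) X) hs)

lemma FullS.pw_prod (h : ∀ n, FullS S (pw X n)) (m n : ℕ) :
    FullS S ((pw X m).prod (pw X n)) :=
  (h (m + n + 1)).retract (pwAdd X m n).hom (pwAdd X m n).inv (pwAdd X m n).hom_inv_id

lemma FullS.op (h : FullS S (X.prod Y)) {f : T.W.H X →ₗ[T.W.K] T.W.H Y}
    (hf : f ∈ (AH.hodgeSys T).Op X Y) : f ∈ S.Op X Y := by
  obtain ⟨c, hc, rfl⟩ := Sys.mem_Op.1 hf
  exact Sys.Op.corr (h hc)

lemma FullS.pw_le' {m n : ℕ} (hmn : m ≤ n) (h : FullS S (pw X n)) : FullS S (pw X m) := by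
  induction n, hmn using Nat.le_induction with
  | base => exact h
  | succ n _ ih =>
    obtain ⟨s, hs⟩ := exists_pw_section X n
    exact ih (h.retract s (fst (pw X n) X) hs)

/-- The factorisation property of the set `M` of exponents. -/
def Fac (T : AH.HodgeTheory ops) (X : 𝒱.Obj) (l : ℕ) (M : Finset ℕ) : Prop :=
  ∀ Z : 𝒱.Obj, Lev T Z l → ∀ n, ∀ u ∈ (AH.hodgeSys T).Op Z (pw X n),
    ∃ (β : Type) (_ : Fintype β) (m : β → ℕ)
      (G : ∀ b, T.W.H (pw X (m b)) →ₗ[T.W.K] T.W.H (pw X n))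
      (w : ∀ b, T.W.H Z →ₗ[T.W.K] T.W.H (pw X (m b))),
      (∀ b, m b ∈ M) ∧ (∀ b, G b ∈ (AH.hodgeSys T).Op (pw X (m b)) (pw X n)) ∧
      (∀ b, w b ∈ (AH.hodgeSys T).Op Z (pw X (m b))) ∧ u = ∑ b, G b ∘ₗ w b

/-- **Hodge classes on `Z × X^n`, `Z` of bounded level.** -/
theorem fullS_of_factor {M : Finset ℕ} (hM : Fac T X l M) (hall : ∀ n, FullS S (pw X n))
    {N : ℕ} (hN : ∀ m ∈ M, m ≤ N) (hZ : Lev T Z l) (h : FullS S (Z.prod (pw X N))) (n : ℕ) :
    FullS S (Z.prod (pw X n)) := by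
  intro c hc
  obtain ⟨β, _, m, G, w, h1, h2, h3, h4⟩ := hM Z hZ n (T.W.corr c) (Sys.Op.corr hc)
  have h5 : T.W.corr c ∈ S.Op Z (pw X n) := by
    rw [h4]
    refine Submodule.sum_mem _ fun b _ => ?_
    exact Sys.Op.comp ((FullS.pw_prod hall _ _).op (h2 b)) ((h.pw_le (hN _ (h1 b))).op (h3 b))
  obtain ⟨c', hc', h6⟩ := Sys.mem_Op.1 h5
  have h7 : c' = c := (corrL_bijective T.W Z (pw X n)).1 h6
  rw [← h7]
  exact hc'

end AH

open Pool.Agent.Q60.HDS (PolHodgeTheory HodgeConjectureFor totalBetti power tH realH exists_isPol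
  bound_pos)

variable (T : PolHodgeTheory ops)

/-- **The powers of a variety.** -/
theorem determination {S : Sys (tH T).W} (hS : ∀ Z, S.C Z ≤ (AH.hodgeSys (tH T)).C Z)
    {X : 𝒱.Obj} {N : ℕ}
    (hN : (2 * totalBetti T.toHodgeTheory X) ^ (3 * totalBetti T.toHodgeTheory X ^ 2) ≤ N)
    (h : FullS S (pw X (N - 1))) (n : ℕ) : FullS S (pw X n) := by
  obtain ⟨φ, hφ⟩ := exists_isPol T X
  have h0 := bound_pos (totalBetti T.toHodgeTheory X)
  refine Pool.Agent.Q60.HD.one_power (realH T X) hφ S hS (N := N - 1) ?_ h n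
  refine le_trans ?_ (le_trans hN ?_)
  · exact le_rfl
  · omega

/-- **The uniform reduction for a system of classes.** -/
theorem bounded_level (X : 𝒱.Obj) (l : ℕ) :
    ∃ M : Finset ℕ, M.card ≤ (2 * l + 1) ^ (totalBetti T.toHodgeTheory X ^ 2) ∧
      ∀ S : Sys (tH T).W, (∀ Z, S.C Z ≤ (AH.hodgeSys (tH T)).C Z) →
        (∀ Z : 𝒱.Obj, ∀ z : Z.Cycles, Z.IsCyc 1 z → (tH T).W.cl Z z ∈ S.C Z) →
        ∀ N : ℕ, (∀ m ∈ M, m ≤ N) →
          (2 * totalBetti T.toHodgeTheory X) ^ (3 * totalBetti T.toHodgeTheory X ^ 2) ≤ N →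
          ∀ Z : 𝒱.Obj, LevelLE T.toHodgeTheory Z l → FullS S (Z.prod (power X N)) →
            ∀ n, FullS S (Z.prod (power X n)) := by
  classical
  obtain ⟨M, hM, h⟩ := exists_factor (polH T) X l
  refine ⟨M.image fun m => m + 1, Finset.card_image_le.trans hM, ?_⟩
  intro S hS hS1 N hN hN0 Z hZ hZN n
  have hZN' : FullS S (Z.prod (pw X (N - 1))) := hZN
  rcases subsingleton_or_nontrivial ((tH T).W.H Z) with hs | hs
  · exact fullS_trivial
  · have h1 : FullS S (pw X (N - 1)) := hZN'.of_prod hS1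
    refine fullS_of_factor (X := X) h (determination T hS hN0 h1) (N := N - 1) (fun m hm => ?_)
      (lev_of hZ) hZN' (n - 1)
    have := hN (m + 1) (Finset.mem_image_of_mem _ hm)
    omega

end Pool.Agent.Q50.MO
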