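import Pool.Agent.Q50.BL.BDefs
import Pool.Agent.Q55.MotivatedDefs

/-!
# Hodge classes and motivated classes: definitions
-/

open CategoryTheory AlgebraicGeometry

universe u

namespace Pool.Agent.Q50.MO

open Pool.Agent.H914 Pool.Agent.H914.VarClass Pool.Agent.H914.VarClass.Obj
open Pool.Agent.Y121.AHS
open Pool.Agent.Q55 (Motivated)

variable {k : Type u} [Field k] {𝒱 : VarClass k} {ops : CycleOps 𝒱}

/-- All Hodge classes on `Y` are motivated. -/
def HodgeMotivated (T : HodgeTheory ops) (Y : 𝒱.Obj) : Prop :=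
  ∀ j c, IsHodge T Y j c → Motivated T.W Y j c

end Pool.Agent.Q50.MO
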