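import Pool.Agent.Q50.MO.Gen
import Pool.Agent.Q55.Motivated

/-!
# The motivated classes are Hodge classes
-/

open CategoryTheory AlgebraicGeometry TensorProduct

universe u

namespace Pool.Agent.Q50.MO

open Module
open Pool.Agent.H914 Pool.Agent.H914.VarClass Pool.Agent.H914.VarClass.Obj
  Pool.Agent.H914.WeilCohomology
open Pool.Agent.Y133.Half
open Pool.Agent.Y121
open Pool.Agent.Q50.BL
open Pool.Agent.H447

section Gen

variable {K : Type} [Field K] [Algebra K ℂ] {V V' : Type*} [AddCommGroup V] [Module K V]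
  [AddCommGroup V'] [Module K V']

/-- The kernel of the base change. -/
lemma ker_baseChange (f : V →ₗ[K] V') {x : ℂ ⊗[K] V} (hx : f.baseChange ℂ x = 0) :
    ∃ w : ℂ ⊗[K] LinearMap.ker f, (LinearMap.ker f).subtype.baseChange ℂ w = x := by
  obtain ⟨s, hs⟩ := f.rangeRestrict.exists_rightInverse_of_surjective
    (LinearMap.range_eq_top.2 f.surjective_rangeRestrict)
  obtain ⟨p, hp⟩ := (LinearMap.range f).subtype.exists_leftInverse_of_injective
    (LinearMap.ker_eq_bot.2 (LinearMap.range f).injective_subtype)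
  have h1 : ∀ v, f (s (p (f v))) = f v := by
    intro v
    have e1 : p (f v) = f.rangeRestrict v :=
      congrArg (fun g : LinearMap.range f →ₗ[K] LinearMap.range f => g (f.rangeRestrict v)) hp
    rw [e1]
    have e2 : f.rangeRestrict (s (f.rangeRestrict v)) = f.rangeRestrict v :=
      congrArg (fun g : LinearMap.range f →ₗ[K] LinearMap.range f => g (f.rangeRestrict v)) hs
    exact congrArg Subtype.val e2
  let e : V →ₗ[K] LinearMap.ker f := (LinearMap.id - s ∘ₗ p ∘ₗ f).codRestrict _ fun v => by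
    rw [LinearMap.mem_ker, LinearMap.sub_apply, map_sub, LinearMap.comp_apply,
      LinearMap.comp_apply, h1, LinearMap.id_apply, sub_self]
  have he : ∀ y : ℂ ⊗[K] V, (LinearMap.ker f).subtype.baseChange ℂ (e.baseChange ℂ y) =
      y - (s ∘ₗ p).baseChange ℂ (f.baseChange ℂ y) := by
    intro y
    induction y using TensorProduct.induction_on with
    | zero => simp
    | add x y hx hy =>
      rw [map_add, map_add, hx, hy, map_add, map_add]
      abel
    | tmul z v =>
      rw [LinearMap.baseChange_tmul, LinearMap.baseChange_tmul, LinearMap.baseChange_tmul,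
        LinearMap.baseChange_tmul, ← tmul_sub]
      rfl
  exact ⟨e.baseChange ℂ x, by rw [he, hx, map_zero, sub_zero]⟩

/-- Induction for primitive elements. -/
lemma prim_ind {S : Submodule K V} {f : V →ₗ[K] V'} {P : ℂ ⊗[K] V → Prop} (h0 : P 0)
    (hadd : ∀ x y, P x → P y → P (x + y))
    (h : ∀ (z : ℂ), ∀ a ∈ S, f a = 0 → P (z ⊗ₜ[K] a)) {x : ℂ ⊗[K] V}
    (hx : x ∈ S.baseChange ℂ) (hf : f.baseChange ℂ x = 0) : P x := by
  obtain ⟨w, rfl⟩ := hx
  have h1 : (f ∘ₗ S.subtype).baseChange ℂ w = 0 := by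
    rw [LinearMap.baseChange_comp]
    exact hf
  obtain ⟨w', rfl⟩ := ker_baseChange _ h1
  induction w' using TensorProduct.induction_on with
  | zero => rw [map_zero, map_zero]; exact h0
  | add x y hx hy =>
    have e1 : ∀ w, (f ∘ₗ S.subtype).baseChange ℂ
        ((LinearMap.ker (f ∘ₗ S.subtype)).subtype.baseChange ℂ w) = 0 := by
      intro w
      rw [← LinearMap.comp_apply, ← LinearMap.baseChange_comp]
      have e2 : (f ∘ₗ S.subtype) ∘ₗ (LinearMap.ker (f ∘ₗ S.subtype)).subtype = 0 := by
        apply LinearMap.ext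
        intro v
        exact v.2
      rw [e2, LinearMap.baseChange_zero, LinearMap.zero_apply]
    have e3 : ∀ w, f.baseChange ℂ (S.subtype.baseChange ℂ
        ((LinearMap.ker (f ∘ₗ S.subtype)).subtype.baseChange ℂ w)) = 0 := by
      intro w
      have := e1 w
      rw [LinearMap.baseChange_comp] at this
      exact this
    rw [map_add, map_add]
    exact hadd _ _ (hx (e3 x) (e1 x)) (hy (e3 y) (e1 y))
  | tmul z v =>
    rw [LinearMap.baseChange_tmul, LinearMap.baseChange_tmul]
    exact h z _ (v : S).2 v.2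

variable {h : Module.End ℂ (ℂ ⊗[K] V)}

lemma mor_pow {f : Module.End K V} (hf : Mor h h f) (j : ℕ) : Mor h h (f ^ j) := by
  induction j with
  | zero =>
    intro x
    rw [pow_zero]
    change (LinearMap.id : V →ₗ[K] V).baseChange ℂ (h x) = h ((LinearMap.id : V →ₗ[K] V).baseChange ℂ x)
    rw [LinearMap.baseChange_id]
    rfl
  | succ j ih =>
    rw [pow_succ]
    exact ih.comp hf

lemma mor_zero : Mor h h (0 : Module.End K V) := by
  intro x
  rw [LinearMap.baseChange_zero, LinearMap.zero_apply, LinearMap.zero_apply, map_zero]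

end Gen

variable {k : Type u} [Field k] {𝒱 : VarClass k} {ops : CycleOps 𝒱} {T : AH.HodgeTheory ops}
  {X Y : 𝒱.Obj}

/-- The Lambda operators commute with the Hodge operator. -/
lemma mor_lam {D : X.Cycles} (hD : X.IsCyc 1 D) (hHL : HardLefschetz T.W X D)
    {Lam : Module.End T.W.K (T.W.H X)}
    (hLam : IsLam (T.W.gr X) X.dim (LinearMap.mulLeft T.W.K (T.W.cl X D)) Lam) :
    Mor (hop T X) (hop T X) Lam := by
  have hL : Mor (hop T X) (hop T X) (LinearMap.mulLeft T.W.K (T.W.cl X D)) := by
    refine mor_of_op ?_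
    have h1 : LinearMap.mulLeft T.W.K (T.W.cl X D) =
        T.W.corr (T.W.push (diag X) (T.W.cl X D)) := by
      apply LinearMap.ext
      intro a
      rw [T.W.corr_diag]
      rfl
    rw [h1]
    refine Sys.Op.corr ((AH.hodgeSys T).push _ ?_)
    exact ClassPred.alg_le (Q := AH.hodgePred T) (Pool.Agent.W536.RR.cl_mem_algSpan hD)
  have hLh : IsHom (T.W.gr X) 2 (LinearMap.mulLeft T.W.K (T.W.cl X D)) := by
    simpa using rop_opAlg.hom (rop_mulLeft (W := T.W) hD)
  intro x
  induction x using TensorProduct.induction_on with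
  | zero => rw [map_zero, map_zero, map_zero]
  | add x y hx hy => rw [map_add, map_add, hx, hy, map_add, map_add]
  | tmul z v =>
    refine lef_induction' (T.W.isInternal X) hLh W_hbd hHL
      (p := fun v => Lam.baseChange ℂ (hop T X (z ⊗ₜ[T.W.K] v)) =
        hop T X (Lam.baseChange ℂ (z ⊗ₜ[T.W.K] v))) ?_ ?_ v
    · intro a b ha hb
      rw [tmul_add, map_add, map_add, ha, hb, map_add, map_add]
    · intro i hi a ha hp j
      set L := LinearMap.mulLeft T.W.K (T.W.cl X D) with hLdef
      set c : Module.End T.W.K (T.W.H X) :=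
        if j = 0 then 0 else if j ≤ X.dim - i then L ^ (j - 1) else 0 with hc
      have hc' : Mor (hop T X) (hop T X) c := by
        rw [hc]
        split_ifs
        · exact mor_zero
        · exact mor_pow hL _
        · exact mor_zero
      have hca : ∀ a ∈ T.W.gr X i, (L ^ (X.dim - i + 1)) a = 0 → Lam ((L ^ j) a) = c a := by
        intro a ha hp
        rw [Pool.Agent.Q55.isLam_apply hLam hi ha hp, hc]
        split_ifs <;> rfl
      have h1 : (z ⊗ₜ[T.W.K] (L ^ j) a : CH T X) = (L ^ j).baseChange ℂ (z ⊗ₜ[T.W.K] a) := by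
        rw [LinearMap.baseChange_tmul]
      rw [LinearMap.baseChange_tmul, hca a ha hp, h1, ← mor_pow hL j]
      have h2 : hop T X (z ⊗ₜ[T.W.K] c a) = c.baseChange ℂ (hop T X (z ⊗ₜ[T.W.K] a)) := by
        rw [hc', LinearMap.baseChange_tmul]
      rw [h2]
      have h3 : hop T X (z ⊗ₜ[T.W.K] a) ∈ (T.W.gr X i).baseChange ℂ :=
        hop_gr (Submodule.tmul_mem_baseChange_of_mem _ ha)
      have h4 : (L ^ (X.dim - i + 1)).baseChange ℂ (hop T X (z ⊗ₜ[T.W.K] a)) = 0 := by
        rw [mor_pow hL, LinearMap.baseChange_tmul, hp, tmul_zero, map_zero]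
      refine prim_ind (P := fun y => Lam.baseChange ℂ ((L ^ j).baseChange ℂ y) =
        c.baseChange ℂ y) ?_ ?_ ?_ h3 h4
      · rw [map_zero, map_zero, map_zero]
      · intro x y hx hy; rw [map_add, map_add, hx, hy, map_add]
      · intro z a ha hp
        rw [LinearMap.baseChange_tmul, LinearMap.baseChange_tmul, LinearMap.baseChange_tmul,
          hca a ha hp]

lemma isHodge_of_mem {j : ℕ} {c : T.W.H X} (hc : c ∈ (AH.hodgeSys T).C X)
    (hj : c ∈ T.W.gr X (2 * j)) : AH.IsHodge T X j c := by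
  have h2 := ClassPred.sp_proj (Q := AH.hodgePred T) hc j
  have h3 : H914.proj (T.W.isInternal X) (2 * j) c = c := proj_same _ hj
  have h5 : (AH.hodgePred T).P X j (H914.proj (T.W.isInternal X) (2 * j) c) := h2
  rw [h3] at h5
  exact h5

/-- **Motivated classes are Hodge classes.** -/
theorem mot_hodge {j : ℕ} {c : T.W.H X} (h : Pool.Agent.Q55.Motivated T.W X j c) :
    AH.IsHodge T X j c := by
  induction h with
  | cl hz => exact AH.IsHodge.cl hz
  | @lambda X D c hD hHL hc =>
    refine isHodge_of_mem ?_ hc.1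
    obtain ⟨c', hc', h1⟩ := Sys.mem_Op.1 (op_of_mor (mor_lam hD hHL hc.2))
    have h2 : c' = c := (corrL_bijective T.W X X).1 h1
    rwa [← h2]
  | add _ _ ha hb => exact ha.add hb
  | smul r _ ha => exact ha.smul r
  | mul _ _ ha hb => exact ha.mul hb
  | pull f _ ha => exact ha.map f
  | push f hl _ ha => exact ha.push f hl

/-- The system of the motivated classes. -/
noncomputable def motSys (W : WeilCohomology.{u, 0} ops) : Sys W :=
  (Pool.Agent.Q55.motPred W).sys

lemma mot_le_hodge (Z : 𝒱.Obj) : (motSys T.W).C Z ≤ (AH.hodgeSys T).C Z := by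
  intro c hc
  refine ClassPred.sp_ind (Q := Pool.Agent.Q55.motPred T.W)
    (q := fun c => c ∈ (AH.hodgeSys T).C Z) ?_ ?_ ?_ hc
  · intro j x hx
    exact ClassPred.sp_of (Q := AH.hodgePred T) (mot_hodge hx)
  · exact Submodule.zero_mem _
  · intro a b ha hb; exact Submodule.add_mem _ ha hb

lemma cl_mem_mot (W : WeilCohomology.{u, 0} ops) (Z : 𝒱.Obj) (z : Z.Cycles) (hz : Z.IsCyc 1 z) :
    W.cl Z z ∈ (motSys W).C Z :=
  ClassPred.sp_of (Q := Pool.Agent.Q55.motPred W) (Pool.Agent.Q55.Motivated.cl hz)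

lemma fullS_mot_iff {Y : 𝒱.Obj} : FullS (T := T) (motSys T.W) Y ↔
    ∀ j c, AH.IsHodge T Y j c → Pool.Agent.Q55.Motivated T.W Y j c := by
  constructor
  · intro h j c hc
    have h1 : c ∈ (Pool.Agent.Q55.motPred T.W).sp Y :=
      h (ClassPred.sp_of (Q := AH.hodgePred T) (j := j) hc)
    have h2 := ClassPred.sp_proj h1 j
    have h3 : H914.proj (T.W.isInternal Y) (2 * j) c = c := proj_same _ hc.1
    have h5 : (Pool.Agent.Q55.motPred T.W).P Y j
        (H914.proj (T.W.isInternal Y) (2 * j) c) := h2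
    rw [h3] at h5
    exact h5
  · intro h c hc
    refine ClassPred.sp_ind (Q := AH.hodgePred T)
      (q := fun c => c ∈ (motSys T.W).C Y) ?_ ?_ ?_ hc
    · intro j x hx
      exact ClassPred.sp_of (Q := Pool.Agent.Q55.motPred T.W) (h j x hx)
    · exact Submodule.zero_mem _
    · intro a b ha hb; exact Submodule.add_mem _ ha hb

end Pool.Agent.Q50.MO
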